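import Pool.Agent.N245.BG.Stm

set_option autoImplicit false

/-! # A very close return of the critical orbit makes the parameter hyperbolic -/

namespace Pool.Agent.N291.BG

open Complex Metric Set Filter Topology Pool.Agent.H712R2 Pool.Agent.H713R2 N62a1eb23
open Pool.Agent.Y736.HL Pool.Agent.N245.BG

theorem duh (c z : ℂ) (k : ℕ) (hk : 1 ≤ k) :
    ‖(fc 2 c)^[k] z - P 2 k c‖ ≤
      LL c 1 k * ‖z‖ ^ 2 +
        ∑ j ∈ Finset.Ico 1 k, LL c (j + 1) k * ‖(fc 2 c)^[j] z - P 2 j c‖ ^ 2 := by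
  induction k, hk using Nat.le_induction with
  | base =>
    have h1 : P 2 1 c = c := by rw [P_succ, P_zero]; ring
    rw [h1, LL_self]
    simp [fc]
  | succ k hk ih =>
    rw [Finset.sum_Ico_succ_top hk, LL_self, one_mul]
    have e : (fc 2 c)^[k + 1] z - P 2 (k + 1) c =
        2 * P 2 k c * ((fc 2 c)^[k] z - P 2 k c) + ((fc 2 c)^[k] z - P 2 k c) ^ 2 := by
      rw [P_succ, Function.iterate_succ_apply']
      unfold fc
      ring
    have h1 : ‖(fc 2 c)^[k + 1] z - P 2 (k + 1) c‖ ≤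
        ‖2 * P 2 k c‖ * ‖(fc 2 c)^[k] z - P 2 k c‖ + ‖(fc 2 c)^[k] z - P 2 k c‖ ^ 2 := by
      rw [e]
      refine (norm_add_le _ _).trans ?_
      rw [norm_mul, norm_pow]
    have h2 : ∑ j ∈ Finset.Ico 1 k, LL c (j + 1) (k + 1) *
        ‖(fc 2 c)^[j] z - P 2 j c‖ ^ 2 =
        ‖2 * P 2 k c‖ * ∑ j ∈ Finset.Ico 1 k, LL c (j + 1) k *
          ‖(fc 2 c)^[j] z - P 2 j c‖ ^ 2 := by
      rw [Finset.mul_sum]
      apply Finset.sum_congr rfl
      intro j hj
      rw [LL_succ c (by have := (Finset.mem_Ico.1 hj).2; omega)]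
      ring
    rw [h2, LL_succ c hk]
    have h3 := mul_le_mul_of_nonneg_left ih (norm_nonneg (2 * P 2 k c))
    linarith

theorem claim {c : ℂ} {A : ℝ} {n : ℕ} (hA : 1 ≤ A)
    (hL : ∀ m k, 1 ≤ m → m ≤ k → k ≤ n → LL c m k ≤ A) {z : ℂ} {s : ℝ} (hz : ‖z‖ ≤ s)
    (hs : 4 * A ^ 2 * n * s ^ 2 ≤ 1) :
    ∀ k, 1 ≤ k → k ≤ n → ‖(fc 2 c)^[k] z - P 2 k c‖ ≤ 2 * A * s ^ 2 := by
  intro k
  induction k using Nat.strong_induction_on with
  | _ k ih =>
    intro h1 hn
    have hs0 : 0 ≤ s := (norm_nonneg _).trans hz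
    have hd := duh c z k h1
    have e1 : LL c 1 k * ‖z‖ ^ 2 ≤ A * s ^ 2 := by
      have := hL 1 k le_rfl h1 hn
      have h2 : ‖z‖ ^ 2 ≤ s ^ 2 := by gcongr
      calc LL c 1 k * ‖z‖ ^ 2 ≤ A * ‖z‖ ^ 2 := by gcongr
        _ ≤ A * s ^ 2 := by gcongr
    have e2 : ∑ j ∈ Finset.Ico 1 k, LL c (j + 1) k * ‖(fc 2 c)^[j] z - P 2 j c‖ ^ 2 ≤
        ∑ _j ∈ Finset.Ico 1 k, A * (2 * A * s ^ 2) ^ 2 := by
      apply Finset.sum_le_sum
      intro j hj
      obtain ⟨hj1, hj2⟩ := Finset.mem_Ico.1 hj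
      have a1 := hL (j + 1) k (by omega) (by omega) hn
      have a2 := ih j hj2 hj1 (by omega)
      have a3 := norm_nonneg ((fc 2 c)^[j] z - P 2 j c)
      have a4 : ‖(fc 2 c)^[j] z - P 2 j c‖ ^ 2 ≤ (2 * A * s ^ 2) ^ 2 := by gcongr
      calc LL c (j + 1) k * ‖(fc 2 c)^[j] z - P 2 j c‖ ^ 2
          ≤ A * ‖(fc 2 c)^[j] z - P 2 j c‖ ^ 2 := by gcongr
        _ ≤ A * (2 * A * s ^ 2) ^ 2 := by gcongr
    rw [Finset.sum_const, Nat.card_Ico, nsmul_eq_mul] at e2
    have e3 : ((k - 1 : ℕ) : ℝ) ≤ n := by exact_mod_cast (by omega : k - 1 ≤ n)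
    have e4 : ((k - 1 : ℕ) : ℝ) * (A * (2 * A * s ^ 2) ^ 2) ≤ A * s ^ 2 := by
      calc ((k - 1 : ℕ) : ℝ) * (A * (2 * A * s ^ 2) ^ 2)
          ≤ n * (A * (2 * A * s ^ 2) ^ 2) := by gcongr
        _ = (4 * A ^ 2 * n * s ^ 2) * (A * s ^ 2) := by ring
        _ ≤ 1 * (A * s ^ 2) := by gcongr
        _ = A * s ^ 2 := one_mul _
    linarith

theorem diff_iter (c : ℂ) (n : ℕ) : Differentiable ℂ (fc 2 c)^[n] := by
  apply Differentiable.iterate
  unfold fc
  fun_prop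

theorem deriv_bound {c : ℂ} {A : ℝ} {n : ℕ} (hA : 1 ≤ A) (hn : 1 ≤ n)
    (hL : ∀ m k, 1 ≤ m → m ≤ k → k ≤ n → LL c m k ≤ A) {z : ℂ} {r s : ℝ} (hr : 0 < r)
    (hz : ‖z‖ + r ≤ s) (hs : 4 * A ^ 2 * n * s ^ 2 ≤ 1) :
    ‖deriv (fc 2 c)^[n] z‖ ≤ 2 * A * s ^ 2 / r := by
  have hd := diff_iter c n
  have e : deriv (fc 2 c)^[n] z = deriv (fun w => (fc 2 c)^[n] w - P 2 n c) z := by
    rw [deriv_sub_const]
  rw [e]
  refine Complex.norm_deriv_le_of_forall_mem_sphere_norm_le hr ?_ ?_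
  · exact (hd.sub_const _).diffContOnCl
  · intro w hw
    refine claim hA hL ?_ hs n hn le_rfl
    have : ‖w - z‖ = r := by simpa [dist_eq_norm] using hw
    calc ‖w‖ = ‖(w - z) + z‖ := by ring_nf
      _ ≤ ‖w - z‖ + ‖z‖ := norm_add_le _ _
      _ ≤ s := by linarith

theorem rec : S_REC := by
  intro c A n hA hn hL hx
  have hn' : (1 : ℝ) ≤ n := by exact_mod_cast hn
  have hA0 : 0 < A := by linarith
  have hn0 : (0 : ℝ) < n := by linarith
  have hfun : (fun w : ℂ => w ^ 2 + c) = fc 2 c := rfl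
  rw [hfun]
  have hd := diff_iter c n
  rcases eq_or_lt_of_le (norm_nonneg (P 2 n c)) with h0 | hpos
  · -- the superattracting case
    refine ⟨0, hn, ?_, hd _, ?_⟩
    · have h1 : P 2 n c = 0 := norm_eq_zero.1 h0.symm
      have h2 := claim hA hL (z := 0) (s := 0) (by simp) (by simp) n hn le_rfl
      have h3 : (fc 2 c)^[n] 0 - P 2 n c = 0 := by
        apply norm_eq_zero.1
        apply le_antisymm _ (norm_nonneg _)
        simpa using h2
      show (fc 2 c)^[n] 0 = 0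
      rw [h1, sub_zero] at h3
      exact h3
    · have hs : 4 * A ^ 2 * n * (1 / (4 * A * n)) ^ 2 ≤ 1 := by
        have : 4 * A ^ 2 * n * (1 / (4 * A * n)) ^ 2 = 1 / (4 * n) := by
          field_simp
        rw [this, div_le_one (by positivity)]
        linarith
      have h1 := deriv_bound hA hn hL (z := 0) (r := 1 / (4 * A * n)) (s := 1 / (4 * A * n))
        (by positivity) (by simp) hs
      refine lt_of_le_of_lt h1 ?_
      have : 2 * A * (1 / (4 * A * n)) ^ 2 / (1 / (4 * A * n)) = 1 / (2 * n) := by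
        field_simp
        ring
      rw [this, div_lt_one (by positivity)]
      linarith
  · set x : ℝ := ‖P 2 n c‖ with hxdef
    have hAx : A * n * x ≤ 1 / 32 := by
      rw [le_div_iff₀ (by positivity)] at hx
      nlinarith
    have hAx' : A * x ≤ 1 / 32 := by
      refine le_trans ?_ hAx
      have : A * x * 1 ≤ A * x * n := by gcongr
      nlinarith
    have hs4 : 4 * A ^ 2 * n * (4 * x) ^ 2 ≤ 1 := by
      have h1 : 4 * A ^ 2 * n * (4 * x) ^ 2 = 64 * ((A * n * x) * (A * x)) := by ring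
      have h2 : (A * n * x) * (A * x) ≤ 1 / 32 * (1 / 32) :=
        mul_le_mul hAx hAx' (by positivity) (by norm_num)
      rw [h1]
      linarith
    have hs2 : 4 * A ^ 2 * n * (2 * x) ^ 2 ≤ 1 := by
      refine le_trans ?_ hs4
      gcongr
      linarith
    have hder : ∀ z ∈ closedBall (0 : ℂ) (2 * x), ‖deriv (fc 2 c)^[n] z‖ ≤ 1 / 2 := by
      intro z hz
      rw [mem_closedBall, dist_zero_right] at hz
      have h1 := deriv_bound hA hn hL (z := z) (r := 2 * x) (s := 4 * x) (by positivity)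
        (by linarith) hs4
      refine h1.trans ?_
      have : 2 * A * (4 * x) ^ 2 / (2 * x) = 16 * (A * x) := by
        field_simp
        ring
      rw [this]
      linarith
    have hmaps : MapsTo (fc 2 c)^[n] (closedBall (0 : ℂ) (2 * x)) (closedBall (0 : ℂ) (2 * x)) := by
      intro z hz
      rw [mem_closedBall, dist_zero_right] at hz ⊢
      have h1 := claim hA hL hz hs2 n hn le_rfl
      have h2 : 2 * A * (2 * x) ^ 2 = 8 * x * (A * x) := by ring
      have h3 : 8 * x * (A * x) ≤ 8 * x * (1 / 32) := by gcongr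
      calc ‖(fc 2 c)^[n] z‖ = ‖((fc 2 c)^[n] z - P 2 n c) + P 2 n c‖ := by ring_nf
        _ ≤ ‖(fc 2 c)^[n] z - P 2 n c‖ + ‖P 2 n c‖ := norm_add_le _ _
        _ ≤ 2 * x := by linarith
    have hlip : ∀ z ∈ closedBall (0 : ℂ) (2 * x), ∀ w ∈ closedBall (0 : ℂ) (2 * x),
        ‖(fc 2 c)^[n] w - (fc 2 c)^[n] z‖ ≤ 1 / 2 * ‖w - z‖ := by
      intro z hz w hw
      exact (convex_closedBall (0 : ℂ) (2 * x)).norm_image_sub_le_of_norm_deriv_le
        (fun y _ => hd y) hder hz hw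
    have hcontr : ContractingWith (1 / 2 : NNReal) (hmaps.restrict _ _ _) := by
      refine ⟨by norm_num [← NNReal.coe_lt_coe], LipschitzWith.of_dist_le_mul ?_⟩
      rintro ⟨z, hz⟩ ⟨w, hw⟩
      rw [Subtype.dist_eq, Subtype.dist_eq, dist_eq_norm, dist_eq_norm]
      simpa using hlip w hw z hz
    obtain ⟨z, hz, hfix, -⟩ := ContractingWith.exists_fixedPoint'
      (isClosed_closedBall.isComplete) hmaps hcontr (x := (0 : ℂ))
      (mem_closedBall_self (by positivity)) (edist_ne_top _ _)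
    refine ⟨z, hn, hfix, hd _, lt_of_le_of_lt (hder z hz) (by norm_num)⟩

end Pool.Agent.N291.BG
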